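import Mathlib

/-! Rigid tuples with exponentially large gaps. -/

namespace Pool.Agent.Lib.MP_ee20a5_al

lemma build {ι : Type} [Fintype ι] [Nonempty ι] (v : ι → ℚ) {A : ℚ} (hA : ∀ s, A < v s)
    (h1 : ∀ s, 1 < v s)
    (hr : ∀ f : ι → ℚ, (∀ s t, v s + 1 = v t → f s + 1 = f t) →
      (∀ s t u, v s + v t = v u → f s + f t = f u) → f = v) {n : ℕ} (hn : Fintype.card ι < n) :
    ∃ x : Fin n → ℚ,
      (∀ y : Fin n → ℚ, (∀ i, x i = 1 → y i = 1) →
        (∀ i j k, x i + x j = x k → y i + y j = y k) → y = x) ∧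
      (∀ i j, i ≤ j → |x i| ≤ |x j|) ∧
      ∃ i j : Fin n, j.val = i.val + 1 ∧ 1 ≤ |x i| ∧ A * |x i| < |x j| := by
  classical
  obtain ⟨e⟩ : Nonempty (ι ↪ Fin n) := Function.Embedding.nonempty_of_card_le (by simpa using hn.le)
  obtain ⟨o, ho⟩ : ∃ o, ¬ ∃ s, e s = o := by
    by_contra h
    push Not at h
    exact (Fintype.card_le_of_surjective e h).not_gt (by simpa using hn)
  let z : Fin n → ℚ := Function.extend e v fun _ => 1
  have z1 : ∀ s, z (e s) = v s := e.injective.extend_apply v _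
  have z2 : ∀ i, (¬ ∃ s, e s = i) → z i = 1 := fun i hi => Function.extend_apply' _ _ _ hi
  have z3 : ∀ i, z i = 1 ∨ ∃ s, z i = v s := fun i => by
    by_cases h : ∃ s, e s = i
    · obtain ⟨s, rfl⟩ := h
      exact Or.inr ⟨s, z1 s⟩
    · exact Or.inl (z2 i h)
  have z4 : ∀ i, 1 ≤ z i := fun i => (z3 i).elim Eq.ge fun ⟨s, hs⟩ => hs ▸ (h1 s).le
  let σ := Tuple.sort z
  have hm : Monotone (z ∘ σ) := Tuple.monotone_sort z
  have ab : ∀ i, |(z ∘ σ) i| = z (σ i) := fun i => abs_of_nonneg (zero_le_one.trans (z4 _))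
  refine ⟨z ∘ σ, fun y hy1 hy2 => ?_, fun i j h => by rw [ab, ab]; exact hm h, ?_⟩
  · have y1 : ∀ i, z i = 1 → y (σ.symm i) = 1 := fun i hi => hy1 _ (by simpa using hi)
    have y2 : ∀ i j k, z i + z j = z k → y (σ.symm i) + y (σ.symm j) = y (σ.symm k) :=
      fun i j k h => hy2 _ _ _ (by simpa using h)
    have y3 := hr (fun s => y (σ.symm (e s))) (fun s t h => by
      rw [← y1 o (z2 o ho)]
      exact y2 _ _ _ (by rw [z1, z1, z2 o ho, h])) fun s t u h => y2 _ _ _ (by rw [z1, z1, z1, h])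
    funext i
    obtain ⟨i, rfl⟩ := σ.symm.surjective i
    rw [Function.comp_apply, Equiv.apply_symm_apply]
    by_cases h : ∃ s, e s = i
    · obtain ⟨s, rfl⟩ := h
      rw [z1, ← y3]
    · rw [z2 i h, y1 i (z2 i h)]
  · obtain ⟨s⟩ := ‹Nonempty ι›
    obtain ⟨j, hj, hj'⟩ := Finset.exists_min_image (Finset.univ.filter fun j => z (σ j) ≠ 1) id
      ⟨σ.symm (e s), by simpa [z1] using (h1 s).ne'⟩
    replace hj : z (σ j) ≠ 1 := by simpa using hj
    have h2 : σ.symm o < j := lt_of_not_ge fun h => hj (le_antisymm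
      (by simpa [z2 o ho] using hm h) (z4 _))
    have h3 : 0 < j.val := lt_of_le_of_lt (Nat.zero_le _) h2
    have h4 : z (σ ⟨j.val - 1, by omega⟩) = 1 := by
      by_contra h
      have := hj' ⟨j.val - 1, by omega⟩ (by simpa using h)
      simp only [id, Fin.le_def] at this
      omega
    obtain ⟨t, ht⟩ := (z3 (σ j)).resolve_left hj
    exact ⟨⟨j.val - 1, by omega⟩, j, by simp only; omega, by rw [ab, h4], by
      rw [ab, ab, h4, ht, mul_one]; exact hA t⟩

/-- The entries other than one: `2 ^ i * a`, `2 ^ i * (a + 2 ^ (k * r))` and `(2 ^ k - 1) * a`. -/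
def val (k m : ℕ) : Option (Fin (m + 1) × Fin (k + 1)) → ℚ
  | none => (2 ^ k - 1) * 2 ^ (k * m)
  | some p => 2 ^ (p.2 : ℕ) * (2 ^ (k * m) + if p.1 = 0 then 0 else 2 ^ (k * (p.1 - 1 : ℕ)))

lemma le_val {k m : ℕ} (hk : 0 < k) (s : Option (Fin (m + 1) × Fin (k + 1))) :
    2 ^ (k * m) ≤ val k m s := by
  rcases s with _ | p
  · refine le_mul_of_one_le_left (by positivity) ?_
    have : (2 : ℚ) ^ 1 ≤ 2 ^ k := pow_le_pow_right₀ one_le_two hk
    linarith
  · refine le_trans ?_ (le_mul_of_one_le_left ?_ (one_le_pow₀ one_le_two)) <;> split_ifs <;>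
      first | positivity | simp

lemma val_rigid {k m : ℕ} (hk : 0 < k) (hm : 0 < m) (f : Option (Fin (m + 1) × Fin (k + 1)) → ℚ)
    (h1 : ∀ s t, val k m s + 1 = val k m t → f s + 1 = f t)
    (h2 : ∀ s t u, val k m s + val k m t = val k m u → f s + f t = f u) : f = val k m := by
  have row : ∀ (r : Fin (m + 1)) (i : ℕ) (hi : i < k + 1),
      f (some (r, ⟨i, hi⟩)) = 2 ^ i * f (some (r, 0)) := fun r i => by
    induction i with
    | zero => exact fun _ => (one_mul _).symm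
    | succ i ih =>
      intro hi
      rw [← h2 (some (r, ⟨i, by omega⟩)) (some (r, ⟨i, by omega⟩)) _ (by simp only [val]; ring),
        ih (by omega)]
      ring
  set t := f (some (0, 0)) with ht
  have hw : f none = (2 ^ k - 1) * t := by
    have := h2 none (some (0, 0)) (some (0, ⟨k, by omega⟩)) (by simp [val]; ring)
    rw [row _ k] at this
    linarith
  have st : ∀ (r : ℕ) (hr : r + 1 < m + 1), f (some (⟨r + 1, hr⟩, 0)) = t + 2 ^ (k * r) :=
    fun r => by
      induction r with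
      | zero =>
        intro hr
        rw [← h1 (some (0, 0)) _ (by simp [val, Fin.ext_iff])]
        simp [ht]
      | succ r ih =>
        intro hr
        have := h2 none (some (⟨r + 1 + 1, hr⟩, 0)) (some (⟨r + 1, by omega⟩, ⟨k, by omega⟩))
          (by simp [val, Fin.ext_iff]; ring)
        rw [row _ k, ih, hw] at this
        rw [mul_add k, pow_add, mul_one]
        linarith
  obtain ⟨m, rfl⟩ : ∃ l, m = l + 1 := ⟨m - 1, by omega⟩
  have h3 : t = 2 ^ (k * (m + 1)) := by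
    have := h2 none (some (0, ⟨1, by omega⟩)) (some (⟨m + 1, by omega⟩, ⟨k, by omega⟩))
      (by simp [val, Fin.ext_iff]; ring)
    rw [row, row _ k, st, hw] at this
    rw [mul_add k, pow_add, mul_one]
    linarith
  funext s
  rcases s with _ | ⟨⟨_ | r, hr⟩, ⟨i, hi⟩⟩
  · rw [hw, h3, val]
  · rw [row]
    simp [val, ← ht, h3]
  · rw [row, st, h3]
    simp [val, Fin.ext_iff]

lemma exists_km {c : ℚ} (h0 : 1 ≤ c) (hc : c < 2) : ∃ k N : ℕ, 0 < k ∧ ∀ n, N ≤ n →
    ∃ m, 0 < m ∧ (m + 1) * (k + 1) + 1 < n ∧ c ^ n < 2 ^ (k * m) := by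
  obtain ⟨k, hk⟩ := exists_pow_lt_of_lt_one (show 0 < 1 / c by positivity)
    (show c / 2 < 1 by linarith)
  have hk0 : 0 < k := Nat.pos_of_ne_zero fun h => by
    rw [h, pow_zero, lt_div_iff₀ (by positivity)] at hk
    linarith
  have h1 : c ^ (k + 1) / 2 ^ k < 1 := by
    rw [div_pow, lt_div_iff₀ (by positivity)] at hk
    rwa [pow_succ, mul_div_right_comm]
  obtain ⟨l, hl⟩ := exists_pow_lt_of_lt_one (show 0 < 1 / c ^ (2 * k + 4) by positivity) h1
  refine ⟨k, (l + 2) * (k + 1) + 2, hk0, fun n hn => ?_⟩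
  obtain ⟨m, hm⟩ : ∃ m, (n - 2) / (k + 1) = m + 1 + l := ⟨(n - 2) / (k + 1) - 1 - l, by
    have := (Nat.le_div_iff_mul_le k.add_one_pos).2 (show (l + 2) * (k + 1) ≤ n - 2 by omega)
    omega⟩
  have h2 := Nat.div_mul_le_self (n - 2) (k + 1)
  have h3 := Nat.lt_div_mul_add (a := n - 2) k.add_one_pos
  have h4 := (Nat.le_div_iff_mul_le k.add_one_pos).2 (show (l + 2) * (k + 1) ≤ n - 2 by omega)
  rw [hm] at h2 h3 h4
  refine ⟨m + l, by omega, by rw [add_right_comm]; omega, ?_⟩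
  have h5 : (c ^ (k + 1) / 2 ^ k) ^ (m + l) < 1 / c ^ (2 * k + 4) :=
    (pow_le_pow_of_le_one (by positivity) h1.le (by omega)).trans_lt hl
  rw [div_pow, div_lt_div_iff₀ (by positivity) (by positivity), one_mul, ← pow_mul, ← pow_mul,
    ← pow_add] at h5
  refine (pow_le_pow_right₀ h0 ?_).trans_lt h5
  have h6 : (m + 1 + l) * (k + 1) = (k + 1) * (m + l) + (k + 1) := by ring
  omega

end Pool.Agent.Lib.MP_ee20a5_al
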